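import Pool.Agent.helper18.BAS.Dens

/-!
# Densities of the basins of the cycles of the 3x+1 map
-/

namespace Pool.Agent.helper18.BAS

open Finset Pool.Agent.helper4.BAS Filter Topology

theorem cycle_T {c : Set ℤ} (hc : IsCycle c) {n : ℤ} (h : n ∈ c) : T n ∈ c := by
  obtain ⟨n0, -, rfl⟩ := hc
  obtain ⟨i, rfl⟩ := h
  exact ⟨i + 1, by rw [Function.iterate_succ_apply']⟩

theorem inv_basin {c : Set ℤ} (hc : IsCycle c) : Inv (Basin c) := by
  intro n
  constructor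
  · rintro ⟨k, hk⟩
    exact ⟨k + 1, by rwa [Function.iterate_succ_apply]⟩
  · rintro ⟨k, hk⟩
    cases k with
    | zero => exact ⟨0, cycle_T hc hk⟩
    | succ k => exact ⟨k, by rwa [Function.iterate_succ_apply] at hk⟩

/-- The integers whose trajectory is unbounded. -/
def Unb : Set ℤ := {n | ∀ B : ℤ, ∃ k : ℕ, B < |T^[k] n|}

theorem cycle_bdd {c : Set ℤ} (hc : IsCycle c) : ∃ B : ℤ, ∀ n ∈ c, |n| ≤ B := by
  obtain ⟨n0, ⟨p, hp, h⟩, rfl⟩ := hc
  obtain ⟨M, hM⟩ := per_bound n0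
  refine ⟨M, ?_⟩
  rintro _ ⟨i, rfl⟩
  exact hM i ⟨p, hp, h⟩

theorem cycle_finite {c : Set ℤ} (hc : IsCycle c) : c.Finite := by
  obtain ⟨B, hB⟩ := cycle_bdd hc
  exact (Set.finite_Icc (-B) B).subset fun n hn => abs_le.1 (hB n hn)

theorem unb_iff (n : ℤ) : n ∈ Unb ↔ ¬ ∃ c, IsCycle c ∧ n ∈ Basin c := by
  constructor
  · rintro h ⟨c, hc, k, hk⟩
    obtain ⟨B, hB⟩ := cycle_bdd hc
    obtain ⟨l, hl⟩ := h (B + ∑ i ∈ range k, |T^[i] n|)
    have h0 : 0 ≤ ∑ i ∈ range k, |T^[i] n| := sum_nonneg fun i _ => abs_nonneg _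
    have hB0 : 0 ≤ B := (abs_nonneg _).trans (hB _ hk)
    rcases lt_or_ge l k with hlk | hlk
    · have := single_le_sum (f := fun i => |T^[i] n|) (fun i _ => abs_nonneg _) (mem_range.2 hlk)
      linarith
    · have h1 : ∀ j, T^[j] (T^[k] n) ∈ c := by
        intro j
        induction j with
        | zero => exact hk
        | succ j ih => rw [Function.iterate_succ_apply']; exact cycle_T hc ih
      have h2 := hB _ (h1 (l - k))
      rw [← Function.iterate_add_apply, Nat.sub_add_cancel hlk] at h2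
      linarith
  · intro h B
    by_contra hne
    push Not at hne
    -- pigeonhole
    obtain ⟨i, j, hij, he⟩ : ∃ i j : ℕ, i < j ∧ T^[i] n = T^[j] n := by
      have h1 : (Set.Icc (-B) B).Finite := Set.finite_Icc _ _
      have h2 : Set.MapsTo (fun k : ℕ => T^[k] n) Set.univ (Set.Icc (-B) B) := fun k _ =>
        abs_le.1 (hne k)
      obtain ⟨i, -, j, -, hlt, he⟩ := Set.infinite_univ.exists_lt_map_eq_of_mapsTo h2 h1
      exact ⟨i, j, hlt, he⟩
    refine h ⟨{m : ℤ | ∃ l : ℕ, T^[l] (T^[i] n) = m}, ⟨T^[i] n, ⟨j - i, by omega, ?_⟩, rfl⟩, i, 0, rfl⟩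
    rw [← Function.iterate_add_apply, Nat.sub_add_cancel hij.le, he]

theorem inv_unb : Inv Unb := by
  intro n
  rw [unb_iff, unb_iff, not_iff_not]
  constructor
  · rintro ⟨c, hc, h⟩
    exact ⟨c, hc, (inv_basin hc n).1 h⟩
  · rintro ⟨c, hc, h⟩
    exact ⟨c, hc, (inv_basin hc n).2 h⟩

theorem cycles_hasSum (h : ND) {s : ℤ} (hs : s = 1 ∨ s = -1) :
    HasSum (fun c : {c : Set ℤ // IsCycle c} => dens s (Basin c.1)) (1 - dens s Unb) := by
  have h1 : Pairwise (Function.onFun Disjoint (fun c : {c : Set ℤ // IsCycle c} => Basin c.1)) := by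
    intro c c' hcc
    rw [Function.onFun, Set.disjoint_left]
    intro n hn hn'
    exact hcc (Subtype.ext (basin_unique c.2 c'.2 hn hn'))
  have h2 := dens_hasSum h hs (fun c : {c : Set ℤ // IsCycle c} => inv_basin c.2) h1
  have h3 : (⋃ c : {c : Set ℤ // IsCycle c}, Basin c.1) = Unbᶜ := by
    ext n
    rw [Set.mem_compl_iff, unb_iff, not_not, Set.mem_iUnion]
    constructor
    · rintro ⟨c, hc⟩
      exact ⟨c.1, c.2, hc⟩
    · rintro ⟨c, hc, hn⟩
      exact ⟨⟨c, hc⟩, hn⟩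
  rw [h3] at h2
  have h4 : dens s Unb + dens s Unbᶜ = 1 := by
    rw [← dens_add h hs inv_unb (inv_compl inv_unb) disjoint_compl_right, Set.union_compl_self,
      dens_univ h hs]
  have h5 : dens s Unbᶜ = 1 - dens s Unb := by linarith
  rwa [h5] at h2

theorem basin_pos (h : ND) {s : ℤ} (hs : s = 1 ∨ s = -1) {c : Set ℤ} (hc : IsCycle c) {m : ℤ}
    (hm : m ∈ c) (hsm : 0 < s * m) : 0 < dens s (Basin c) :=
  dens_pos h hs (inv_basin hc) ⟨0, hm⟩ hsm

end Pool.Agent.helper18.BAS
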