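import Pool.Agent.helper18.BAS.Pos
import Pool.Agent.helper4.BAS.FinA

/-!
# Densities of the invariant sets of the 3x+1 map
-/

namespace Pool.Agent.helper18.BAS

open Finset Pool.Agent.helper4.BAS Filter Topology

/-- `S` is invariant: `n ∈ S` if and only if `T n ∈ S`. -/
def Inv (S : Set ℤ) : Prop := ∀ n, T n ∈ S ↔ n ∈ S

open Classical in
/-- The number of `n`, `1 ≤ n ≤ X`, with `s n ∈ S`. -/
noncomputable def cnt (s : ℤ) (S : Set ℤ) (X : ℕ) : ℕ := ((Icc 1 X).filter (fun n : ℕ => s * (n : ℤ) ∈ S)).card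

/-- The density of `S` in the half line of sign `s`. -/
noncomputable def dens (s : ℤ) (S : Set ℤ) : ℝ := limUnder atTop (fun X : ℕ => (cnt s S X : ℝ) / X)

/-- The densities of the invariant sets exist. -/
def ND : Prop := ∀ s : ℤ, (s = 1 ∨ s = -1) → ∀ S : Set ℤ, Inv S →
  ∃ d : ℝ, Tendsto (fun X : ℕ => (cnt s S X : ℝ) / X) atTop (𝓝 d)

theorem tendsto_dens (h : ND) {s : ℤ} (hs : s = 1 ∨ s = -1) {S : Set ℤ} (hS : Inv S) :
    Tendsto (fun X : ℕ => (cnt s S X : ℝ) / X) atTop (𝓝 (dens s S)) :=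
  tendsto_nhds_limUnder (h s hs S hS)

theorem inv_iter {S : Set ℤ} (hS : Inv S) (k : ℕ) (n : ℤ) : T^[k] n ∈ S ↔ n ∈ S := by
  induction k generalizing n with
  | zero => rfl
  | succ k ih => rw [Function.iterate_succ_apply, ih, hS]

theorem inv_univ : Inv Set.univ := fun _ => Iff.rfl

theorem inv_compl {S : Set ℤ} (hS : Inv S) : Inv Sᶜ := fun n => not_congr (hS n)

theorem inv_diff {S R : Set ℤ} (hS : Inv S) (hR : Inv R) : Inv (S \ R) := fun n =>
  and_congr (hS n) (not_congr (hR n))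

theorem inv_iUnion {ι : Type*} {S : ι → Set ℤ} (hS : ∀ i, Inv (S i)) : Inv (⋃ i, S i) := fun n => by
  simp only [Set.mem_iUnion, (fun i => hS i n)]

theorem inv_biUnion {ι : Type*} {S : ι → Set ℤ} (hS : ∀ i, Inv (S i)) (A : Finset ι) :
    Inv (⋃ i ∈ A, S i) := fun n => by
  simp only [Set.mem_iUnion, (fun i => hS i n)]

theorem cnt_mono (s : ℤ) {S R : Set ℤ} (h : S ⊆ R) (X : ℕ) : cnt s S X ≤ cnt s R X := by
  classical
  unfold cnt
  refine card_le_card fun n hn => ?_
  rw [mem_filter] at hn ⊢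
  exact ⟨hn.1, h hn.2⟩

theorem cnt_add (s : ℤ) {S R : Set ℤ} (h : Disjoint S R) (X : ℕ) :
    cnt s (S ∪ R) X = cnt s S X + cnt s R X := by
  classical
  unfold cnt
  rw [← card_union_of_disjoint]
  · congr 1
    ext n
    simp only [mem_filter, mem_union, Set.mem_union]
    tauto
  · rw [disjoint_left]
    intro n h1 h2
    rw [mem_filter] at h1 h2
    exact Set.disjoint_left.1 h h1.2 h2.2

theorem cnt_univ (s : ℤ) (X : ℕ) : cnt s Set.univ X = X := by
  unfold cnt
  simp

theorem cnt_empty (s : ℤ) (X : ℕ) : cnt s ∅ X = 0 := by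
  unfold cnt
  simp

theorem dens_nonneg (h : ND) {s : ℤ} (hs : s = 1 ∨ s = -1) {S : Set ℤ} (hS : Inv S) : 0 ≤ dens s S :=
  ge_of_tendsto' (tendsto_dens h hs hS) fun X => by positivity

theorem dens_mono (h : ND) {s : ℤ} (hs : s = 1 ∨ s = -1) {S R : Set ℤ} (hS : Inv S) (hR : Inv R)
    (hSR : S ⊆ R) : dens s S ≤ dens s R :=
  le_of_tendsto_of_tendsto' (tendsto_dens h hs hS) (tendsto_dens h hs hR) fun X =>
    div_le_div_of_nonneg_right (by exact_mod_cast cnt_mono s hSR X) (by positivity)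

theorem inv_union {S R : Set ℤ} (hS : Inv S) (hR : Inv R) : Inv (S ∪ R) := fun n =>
  or_congr (hS n) (hR n)

theorem dens_add (h : ND) {s : ℤ} (hs : s = 1 ∨ s = -1) {S R : Set ℤ} (hS : Inv S) (hR : Inv R)
    (hd : Disjoint S R) : dens s (S ∪ R) = dens s S + dens s R := by
  refine tendsto_nhds_unique (tendsto_dens h hs (inv_union hS hR)) ?_
  refine ((tendsto_dens h hs hS).add (tendsto_dens h hs hR)).congr fun X => ?_
  rw [cnt_add s hd X]
  push_cast
  ring

theorem dens_univ (h : ND) {s : ℤ} (hs : s = 1 ∨ s = -1) : dens s Set.univ = 1 := by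
  refine tendsto_nhds_unique (tendsto_dens h hs inv_univ) ?_
  refine tendsto_const_nhds.congr' ?_
  filter_upwards [eventually_ge_atTop 1] with X hX
  rw [cnt_univ, div_self]
  have : (0 : ℝ) < X := by exact_mod_cast hX
  exact this.ne'

theorem dens_empty (h : ND) {s : ℤ} (hs : s = 1 ∨ s = -1) : dens s ∅ = 0 := by
  refine tendsto_nhds_unique (tendsto_dens h hs (S := ∅) fun _ => Iff.rfl) ?_
  refine tendsto_const_nhds.congr fun X => ?_
  rw [cnt_empty]
  simp

theorem abs_smul {s : ℤ} (hs : s = 1 ∨ s = -1) (n : ℕ) : |s * (n : ℤ)| = n := by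
  rw [abs_mul, Nat.abs_cast]
  rcases hs with rfl | rfl
  · simp
  · simp

/-- Positivity. -/
theorem dens_pos (h : ND) {s : ℤ} (hs : s = 1 ∨ s = -1) {S : Set ℤ} (hS : Inv S) {m : ℤ} (hm : m ∈ S)
    (hsm : 0 < s * m) : 0 < dens s S := by
  classical
  have hm0 : m ≠ 0 := by rintro rfl; simp at hsm
  obtain ⟨a, X0, ha, hX⟩ := pos_attract hm0
  refine lt_of_lt_of_le ha ?_
  refine ge_of_tendsto (tendsto_dens h hs hS) ?_
  filter_upwards [eventually_ge_atTop (max X0 1)] with X hX0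
  have hX1 : (0 : ℝ) < X := by
    have : 1 ≤ X := le_trans (le_max_right _ _) hX0
    exact_mod_cast this
  obtain ⟨B, hB, hBn⟩ := hX X (le_trans (le_max_left _ _) hX0)
  rw [le_div_iff₀ hX1]
  refine hB.trans ?_
  have hss : s * s = 1 := by rcases hs with rfl | rfl <;> norm_num
  have hpos : ∀ n ∈ B, 0 < s * n := by
    intro n hn
    have h1 := (hBn n hn).2.1
    have h2 : 0 < (s * n) * (s * m) := by
      have : (s * n) * (s * m) = (s * s) * (n * m) := by ring
      rw [this, hss, one_mul]; exact h1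
    exact pos_of_mul_pos_left h2 hsm.le
  have h2 : B.card ≤ cnt s S X := by
    unfold cnt
    refine card_le_card_of_injOn (fun n => n.natAbs) ?_ ?_
    · intro n hn
      obtain ⟨h1, -, k, j, hkj⟩ := hBn n hn
      have h3 := hpos n hn
      have h4 : s * (n.natAbs : ℤ) = n := by
        rcases hs with rfl | rfl
        · omega
        · omega
      rw [coe_filter, Set.mem_ofPred_eq, mem_Icc, h4]
      refine ⟨⟨?_, ?_⟩, ?_⟩
      · rcases hs with rfl | rfl
        · show 1 ≤ n.natAbs; omega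
        · show 1 ≤ n.natAbs; omega
      · show n.natAbs ≤ X
        rw [Int.abs_eq_natAbs] at h1
        exact_mod_cast h1
      · rw [← inv_iter hS k n, hkj, inv_iter hS]
        exact hm
    · intro n hn n' hn' hnn
      have h3 := hpos n hn
      have h4 := hpos n' hn'
      simp only at hnn
      rcases hs with rfl | rfl
      · omega
      · omega
  exact_mod_cast h2

/-- Nothing is lost. -/
theorem dens_tail (h : ND) {s : ℤ} (hs : s = 1 ∨ s = -1) {δ : ℝ} (hδ : 0 < δ) : ∃ Z : ℤ,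
    ∀ S : Set ℤ, Inv S → (∀ n ∈ S, Z ≤ |n|) → dens s S ≤ δ := by
  classical
  obtain ⟨Z, X0, hZ⟩ := down hδ
  refine ⟨Z, fun S hS hn => ?_⟩
  refine le_of_tendsto (tendsto_dens h hs hS) ?_
  filter_upwards [eventually_ge_atTop (max X0 1)] with X hX0
  have hX1 : (0 : ℝ) < X := by
    have : 1 ≤ X := le_trans (le_max_right _ _) hX0
    exact_mod_cast this
  rw [div_le_iff₀ hX1]
  refine le_trans ?_ (hZ X (le_trans (le_max_left _ _) hX0))
  have h2 : cnt s S X ≤ ((Icc (-(X : ℤ)) X).filter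
      (fun n => ¬ ∃ k : ℕ, (k : ℝ) ≤ 8 * Real.log X ∧ |T^[k] n| < Z)).card := by
    unfold cnt
    refine card_le_card_of_injOn (fun n : ℕ => s * (n : ℤ)) ?_ ?_
    · intro n hn'
      rw [coe_filter, Set.mem_ofPred_eq, mem_Icc] at hn'
      rw [coe_filter, Set.mem_ofPred_eq, mem_Icc]
      refine ⟨?_, ?_⟩
      · have h3 := abs_smul hs n
        have h4 := abs_le.1 (le_of_eq h3)
        have h5 : (n : ℤ) ≤ X := by exact_mod_cast hn'.1.2
        constructor
        · linarith [h4.1]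
        · linarith [h4.2]
      · rintro ⟨k, -, hk⟩
        have h3 : T^[k] (s * (n : ℤ)) ∈ S := (inv_iter hS k _).2 hn'.2
        exact absurd hk (not_lt.2 (hn _ h3))
    · intro n hn' n' hn'' hnn
      simp only at hnn
      have hs0 : s ≠ 0 := by rcases hs with rfl | rfl <;> norm_num
      exact_mod_cast mul_left_cancel₀ hs0 hnn
  have h3 : (cnt s S X : ℝ) ≤ (((Icc (-(X : ℤ)) X).filter
      (fun n => ¬ ∃ k : ℕ, (k : ℝ) ≤ 8 * Real.log X ∧ |T^[k] n| < Z)).card : ℕ) := by exact_mod_cast h2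
  convert h3

theorem dens_biUnion (h : ND) {s : ℤ} (hs : s = 1 ∨ s = -1) {ι : Type*} {S : ι → Set ℤ}
    (hS : ∀ i, Inv (S i)) (hd : Pairwise (Function.onFun Disjoint S)) (A : Finset ι) :
    dens s (⋃ i ∈ A, S i) = ∑ i ∈ A, dens s (S i) := by
  classical
  induction A using Finset.induction_on with
  | empty => simp [dens_empty h hs]
  | insert a A ha ih =>
    rw [Finset.set_biUnion_insert, sum_insert ha, ← ih, dens_add h hs (hS a) (inv_biUnion hS A)]
    rw [Set.disjoint_iUnion₂_right]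
    intro i hi
    exact hd fun e => ha (e ▸ hi)

/-- Sigma-additivity, for arbitrary index sets. -/
theorem dens_hasSum (h : ND) {s : ℤ} (hs : s = 1 ∨ s = -1) {ι : Type*} {S : ι → Set ℤ}
    (hS : ∀ i, Inv (S i)) (hd : Pairwise (Function.onFun Disjoint S)) :
    HasSum (fun i => dens s (S i)) (dens s (⋃ i, S i)) := by
  classical
  rw [HasSum, SummationFilter.unconditional_filter, Metric.tendsto_atTop]
  intro δ hδ
  obtain ⟨Z, hZ⟩ := dens_tail h hs (half_pos hδ)
  -- the indices which meet the interval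
  have hfin : {i | ∃ n ∈ S i, |n| < Z}.Finite := by
    refine Set.Finite.of_injOn (f := fun i => if hh : ∃ n ∈ S i, |n| < Z then hh.choose else 0)
      (t := Set.Ioo (-Z) Z) ?_ ?_ (Set.finite_Ioo _ _)
    · intro i hi
      have hi' : ∃ n ∈ S i, |n| < Z := hi
      simp only [dif_pos hi']
      exact abs_lt.1 hi'.choose_spec.2
    · intro i hi j hj hij
      have hi' : ∃ n ∈ S i, |n| < Z := hi
      have hj' : ∃ n ∈ S j, |n| < Z := hj
      simp only [dif_pos hi', dif_pos hj'] at hij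
      by_contra hne
      exact Set.disjoint_left.1 (hd hne) hi'.choose_spec.1 (hij ▸ hj'.choose_spec.1)
  refine ⟨hfin.toFinset, fun A hA => ?_⟩
  rw [← dens_biUnion h hs hS hd A, Real.dist_eq]
  have hU := inv_iUnion hS
  have hA' := inv_biUnion hS A
  have hsub : (⋃ i ∈ A, S i) ⊆ ⋃ i, S i := Set.iUnion₂_subset fun i _ => Set.subset_iUnion S i
  have e1 : dens s (⋃ i, S i) = dens s (⋃ i ∈ A, S i) + dens s ((⋃ i, S i) \ ⋃ i ∈ A, S i) := by
    rw [← dens_add h hs hA' (inv_diff hU hA') Set.disjoint_sdiff_right,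
      Set.union_sdiff_cancel hsub]
  have e2 : dens s ((⋃ i, S i) \ ⋃ i ∈ A, S i) ≤ δ / 2 := by
    refine hZ _ (inv_diff hU hA') fun n hn => ?_
    by_contra hlt
    obtain ⟨i, hi⟩ := Set.mem_iUnion.1 hn.1
    have h2 : i ∈ A := hA (by
      rw [Set.Finite.mem_toFinset]
      exact ⟨n, hi, not_le.1 hlt⟩)
    exact hn.2 (Set.mem_iUnion₂.2 ⟨i, h2, hi⟩)
  have e3 := dens_nonneg h hs (inv_diff hU hA')
  rw [e1, abs_sub_comm, add_sub_cancel_left, abs_of_nonneg e3]
  linarith

end Pool.Agent.helper18.BAS
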