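import Pool.Agent.helper18.BAS.Cyc
import Pool.Agent.helper31.UNI.Cyc
import Pool.Agent.helper7.ND.Nd

/-!
# The densities exist; predecessor sets; lower bounds for the basins of the cycles
-/

namespace Pool.Agent.helper18.BAS

open Finset Pool.Agent.helper4.BAS Filter Topology

/-- `S` is invariant outside a finite set. -/
def AInv (S : Set ℤ) : Prop := ∃ N : ℕ, ∀ n : ℤ, (N : ℤ) ≤ |n| → (T n ∈ S ↔ n ∈ S)

/-- The predecessors of `m`. -/
def Pred (m : ℤ) : Set ℤ := {n | ∃ k : ℕ, T^[k] n = m}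

theorem ainv_pred (m : ℤ) : AInv (Pred m) := by
  refine ⟨(|m| + 1).toNat, fun n hn => ?_⟩
  have hne : n ≠ m := by
    rintro rfl
    have : |n| + 1 ≤ ((|n| + 1).toNat : ℤ) := Int.self_le_toNat _
    linarith
  constructor
  · rintro ⟨k, hk⟩
    exact ⟨k + 1, by rwa [Function.iterate_succ_apply]⟩
  · rintro ⟨k, hk⟩
    cases k with
    | zero => exact absurd hk hne
    | succ k => exact ⟨k, by rwa [Function.iterate_succ_apply] at hk⟩

theorem nd_all : ND := fun _ hs S hS => Pool.Agent.helper7.ND.nd hs S hS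

theorem tendsto_dens' {s : ℤ} (hs : s = 1 ∨ s = -1) {S : Set ℤ} (hS : AInv S) :
    Tendsto (fun X : ℕ => (cnt s S X : ℝ) / X) atTop (𝓝 (dens s S)) :=
  tendsto_nhds_limUnder (Pool.Agent.helper7.ND.dens hs hS)

/-- Lower bounds for the density. -/
theorem le_dens {s : ℤ} (hs : s = 1 ∨ s = -1) {S : Set ℤ} (hS : AInv S) {b : ℝ}
    (h : ∃ X0 : ℕ, ∀ X : ℕ, X0 ≤ X → b * X ≤ cnt s S X) : b ≤ dens s S := by
  obtain ⟨X0, hX⟩ := h
  refine ge_of_tendsto (tendsto_dens' hs hS) ?_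
  filter_upwards [eventually_ge_atTop (max X0 1)] with X hX0
  have hX1 : (0 : ℝ) < X := by
    have : 1 ≤ X := le_trans (le_max_right _ _) hX0
    exact_mod_cast this
  rw [le_div_iff₀ hX1]
  exact hX X (le_trans (le_max_left _ _) hX0)

theorem dens_pred : ∃ a : ℝ, 0 < a ∧ ∀ s m : ℤ, (s = 1 ∨ s = -1) → 0 < s * m → ¬ (3 : ℤ) ∣ m →
    a / |(m : ℝ)| ≤ dens s (Pred m) := by
  obtain ⟨c0, hc0, h⟩ := Pool.Agent.helper31.UNI.uni
  refine ⟨c0, hc0, fun s m hs hsm h3 => ?_⟩
  obtain ⟨X0, hX⟩ := h s m hs hsm h3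
  have hm : ((s * m : ℤ) : ℝ) = |(m : ℝ)| := by
    have h1 : s * m = |m| := by
      rcases hs with rfl | rfl
      · rw [one_mul] at hsm ⊢; exact (abs_of_pos hsm).symm
      · have : m < 0 := by linarith
        rw [abs_of_neg this]; ring
    rw [h1]; push_cast; rfl
  rw [hm] at hX
  refine le_dens hs (ainv_pred m) ⟨X0, fun X hX0 => (hX X hX0).trans (le_of_eq ?_)⟩
  unfold cnt Pred
  norm_cast

theorem dens_cycle : ∃ a : ℝ, 0 < a ∧ ∀ (s : ℤ) (c : Finset ℤ), (s = 1 ∨ s = -1) →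
    IsCycle (c : Set ℤ) → (∀ m ∈ c, 0 < s * m) → a * ∑ x ∈ c, 1 / |(x : ℝ)| ≤ dens s (Basin (c : Set ℤ)) := by
  obtain ⟨c1, hc1, h⟩ := Pool.Agent.helper31.UNI.cyc_low
  refine ⟨c1, hc1, fun s c hs hc hsc => ?_⟩
  obtain ⟨X0, hX⟩ := h s c hs hc hsc
  refine le_dens hs ⟨0, fun n _ => inv_basin hc n⟩ ⟨X0, fun X hX0 => (hX X hX0).trans (le_of_eq ?_)⟩
  unfold cnt
  norm_cast

end Pool.Agent.helper18.BAS

namespace Pool.Agent.helper18.BAS

open Finset Pool.Agent.helper4.BAS Filter Topology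

/-- A cycle different from `{0}` has a nonzero element. -/
theorem cycle_ne_zero {c : Set ℤ} (hc : IsCycle c) (h0 : c ≠ {0}) : ∃ m ∈ c, m ≠ 0 := by
  by_contra h
  push Not at h
  obtain ⟨n, hn, rfl⟩ := hc
  apply h0
  ext m
  constructor
  · intro hm
    exact h m hm
  · intro hm
    rw [Set.mem_singleton_iff] at hm
    subst hm
    have := h n ⟨0, rfl⟩
    subst this
    exact ⟨0, rfl⟩

theorem basin_sum_pos {c : Set ℤ} (hc : IsCycle c) (h0 : c ≠ {0}) :
    0 < dens 1 (Basin c) + dens (-1) (Basin c) := by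
  obtain ⟨m, hm, hm0⟩ := cycle_ne_zero hc h0
  have n1 := dens_nonneg nd_all (s := 1) (Or.inl rfl) (inv_basin hc)
  have n2 := dens_nonneg nd_all (s := -1) (Or.inr rfl) (inv_basin hc)
  rcases lt_or_gt_of_ne hm0 with h | h
  · have := basin_pos nd_all (s := -1) (Or.inr rfl) hc hm (by linarith)
    linarith
  · have := basin_pos nd_all (s := 1) (Or.inl rfl) hc hm (by linarith)
    linarith

/-- Finiteness of the set of cycles is equivalent to a uniform lower bound for the densities of the basins. -/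
theorem finite_iff : {c : Set ℤ | IsCycle c}.Finite ↔ ∃ ε : ℝ, 0 < ε ∧ ∀ c : Set ℤ, IsCycle c → c ≠ {0} →
    ε ≤ dens 1 (Basin c) + dens (-1) (Basin c) := by
  classical
  constructor
  · intro hf
    by_cases hne : (hf.toFinset.filter (fun c => c ≠ {0})).Nonempty
    · obtain ⟨c0, hc0, hmin⟩ := exists_min_image (hf.toFinset.filter (fun c => c ≠ {0}))
        (fun c => dens 1 (Basin c) + dens (-1) (Basin c)) hne
      rw [mem_filter, Set.Finite.mem_toFinset] at hc0
      refine ⟨_, basin_sum_pos hc0.1 hc0.2, fun c hc h0 => hmin c ?_⟩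
      rw [mem_filter, Set.Finite.mem_toFinset]
      exact ⟨hc, h0⟩
    · refine ⟨1, one_pos, fun c hc h0 => absurd ⟨c, ?_⟩ hne⟩
      rw [mem_filter, Set.Finite.mem_toFinset]
      exact ⟨hc, h0⟩
  · rintro ⟨ε, hε, h⟩
    have h1 := (cycles_hasSum nd_all (s := 1) (Or.inl rfl)).add (cycles_hasSum nd_all (s := -1) (Or.inr rfl))
    have h2 := h1.summable.tendsto_cofinite_zero
    have h3 : {c : {c : Set ℤ // IsCycle c} | ε ≤ dens 1 (Basin c.1) + dens (-1) (Basin c.1)}.Finite := by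
      have h4 := (h2.eventually (gt_mem_nhds hε))
      rw [Filter.eventually_cofinite] at h4
      refine h4.subset fun c hc => ?_
      rw [Set.mem_ofPred_eq] at hc ⊢
      exact not_lt.2 hc
    refine ((h3.image (fun c : {c : Set ℤ // IsCycle c} => c.1)).union (Set.finite_singleton {0})).subset ?_
    intro c hc
    by_cases h0 : c = {0}
    · exact Or.inr h0
    · exact Or.inl ⟨⟨c, hc⟩, h c hc h0, rfl⟩

/-- An invariant set of density one contains everything. -/
theorem all_of_almost {s : ℤ} (hs : s = 1 ∨ s = -1) {S : Set ℤ} (hS : Inv S) (h1 : dens s S = 1) {n : ℤ}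
    (hn : 0 < s * n) : n ∈ S := by
  by_contra h
  have h2 := dens_pos nd_all hs (inv_compl hS) h hn
  have h3 := dens_add nd_all hs hS (inv_compl hS) disjoint_compl_right
  rw [Set.union_compl_self, dens_univ nd_all hs] at h3
  linarith

end Pool.Agent.helper18.BAS
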