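import Pool.Agent.helper4.BAS.FinB

/-!
# Every nonzero integer is reached, up to its forward orbit, by a positive proportion of the integers of its sign
-/

namespace Pool.Agent.helper18.BAS

open Finset Pool.Agent.helper14.EX1 Pool.Agent.helper4.BAS

theorem T_even (n : ℤ) : T (2 * n) = n := by
  unfold T
  rw [if_pos (by omega)]
  omega

/-- A not divisible by three element of the trajectory. -/
theorem three_free {m : ℤ} (hm : m ≠ 0) : ∃ j : ℕ, ¬ (3 : ℤ) ∣ T^[j] m := by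
  induction h : m.natAbs using Nat.strong_induction_on generalizing m with
  | _ n ih =>
    subst h
    by_cases h3 : (3 : ℤ) ∣ m
    · by_cases h2 : m % 2 = 0
      · have hT : T m = m / 2 := by unfold T; rw [if_pos h2]
        obtain ⟨j, hj⟩ := @ih (T m).natAbs (by rw [hT]; omega) (T m) (by rw [hT]; omega) rfl
        exact ⟨j + 1, by rwa [Function.iterate_succ_apply]⟩
      · refine ⟨1, ?_⟩
        rw [Function.iterate_one]
        unfold T
        rw [if_neg h2]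
        omega
    · exact ⟨0, h3⟩

/-- The trajectory of a periodic point is bounded. -/
theorem per_bound (m : ℤ) : ∃ M : ℤ, ∀ l : ℕ, (∃ p : ℕ, 1 ≤ p ∧ T^[p] m = m) → |T^[l] m| ≤ M := by
  by_cases h : ∃ p : ℕ, 1 ≤ p ∧ T^[p] m = m
  · obtain ⟨p, hp, h⟩ := h
    refine ⟨∑ i ∈ range p, |T^[i] m|, fun l _ => ?_⟩
    have h1 : Function.IsPeriodicPt T p m := h
    rw [← h1.iterate_mod_apply l]
    exact single_le_sum (f := fun i => |T^[i] m|) (fun i _ => abs_nonneg _)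
      (mem_range.2 (Nat.mod_lt _ hp))
  · exact ⟨0, fun l h' => absurd h' h⟩

theorem four_ndvd {k : ℕ} (hk : 1 ≤ k) {z : ℤ} (h : Al k z) : ¬ (4 : ℤ) ∣ 3 * Tk k z + 2 := by
  have h1 := Tk_node hk h
  obtain ⟨j, rfl⟩ := Nat.exists_eq_add_of_le hk
  rcases Nat.even_or_odd j with hj | hj
  · have h2 : (1 + j) % 2 = 1 := by
      obtain ⟨t, rfl⟩ := hj; omega
    rw [if_pos h2, pow_add, pow_one] at h1
    have h3 : (2 : ℤ) * 2 ^ j * (3 * z + 2) = 2 * (2 ^ j * (3 * z + 2)) := by ring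
    rw [h3] at h1
    omega
  · have h2 : ¬ (1 + j) % 2 = 1 := by
      obtain ⟨t, rfl⟩ := hj; omega
    obtain ⟨t, rfl⟩ := hj
    rw [if_neg h2] at h1
    have h3 : (2 : ℤ) ^ (1 + (2 * t + 1)) * (3 * z + 2) = 4 * (2 ^ (2 * t) * (3 * z + 2)) := by
      rw [show 1 + (2 * t + 1) = 2 * t + 2 by ring, pow_add]; ring
    rw [h3] at h1
    omega

theorem sign_of_iter {n m : ℤ} {k : ℕ} (h : T^[k] n = m) (hm : m ≠ 0) : 0 < n * m := by
  rcases lt_trichotomy n 0 with h1 | h1 | h1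
  · have := (T_pos n k).2 h1
    rw [h] at this
    exact mul_pos_of_neg_of_neg h1 this
  · exfalso
    subst h1
    have : T^[k] (0 : ℤ) = 0 := Function.iterate_fixed (by unfold T; simp) k
    exact hm (h ▸ this)
  · have := (T_pos n k).1 h1
    rw [h] at this
    exact mul_pos h1 this

theorem pos_attract {m : ℤ} (hm : m ≠ 0) : ∃ (a : ℝ) (X0 : ℕ), 0 < a ∧ ∀ X : ℕ, X0 ≤ X →
    ∃ B : Finset ℤ, a * X ≤ B.card ∧
      ∀ n ∈ B, |n| ≤ X ∧ 0 < n * m ∧ ∃ k j : ℕ, T^[k] n = T^[j] m := by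
  obtain ⟨n0, r, hroot⟩ := bas_root
  obtain ⟨j0, hj0⟩ := three_free hm
  have hm1 : T^[j0] m ≠ 0 := by
    intro h
    rw [h] at hj0
    exact hj0 (dvd_zero _)
  -- the node above `T^[j0] m`
  obtain ⟨z, i, hz⟩ : ∃ (z : ℤ) (i : ℕ), T^[i] (3 * z + 2) = T^[j0] m := by
    have h3 : T^[j0] m % 3 = 1 ∨ T^[j0] m % 3 = 2 := by omega
    rcases h3 with h | h
    · refine ⟨(2 * T^[j0] m - 2) / 3, 1, ?_⟩
      rw [Function.iterate_one, show 3 * ((2 * T^[j0] m - 2) / 3) + 2 = 2 * T^[j0] m by omega, T_even]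
    · refine ⟨(T^[j0] m - 2) / 3, 0, ?_⟩
      rw [Function.iterate_zero, id]
      omega
  obtain ⟨M, hM⟩ := per_bound (T^[j0] m)
  -- a large letter
  obtain ⟨N, hN⟩ : ∃ N : ℕ, 3 * M + 2 < 2 ^ N := by
    refine ⟨(3 * M + 2).toNat, ?_⟩
    have h1 : (3 * M + 2).toNat < 2 ^ (3 * M + 2).toNat := Nat.lt_two_pow_self
    have h2 : 3 * M + 2 ≤ ((3 * M + 2).toNat : ℤ) := Int.self_le_toNat _
    have h3 : (((3 * M + 2).toNat : ℕ) : ℤ) < 2 ^ (3 * M + 2).toNat := by exact_mod_cast h1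
    exact lt_of_le_of_lt h2 h3
  obtain ⟨k, hk1, hkN, hal, hr⟩ := Pool.Agent.helper82.PD.primG z n0 r N
  have hz0 : 3 * z + 2 ≠ 0 := by omega
  have hup : T^[k] (3 * Tk k z + 2) = 3 * z + 2 := T_letter hk1 hal
  have hnode := Tk_node hk1 hal
  have hbig : M < |3 * Tk k z + 2| := by
    have h1 : (2 : ℤ) ^ N ≤ 2 ^ k := pow_le_pow_right₀ (by norm_num) hkN
    have h2 : 1 ≤ |3 * z + 2| := Int.one_le_abs hz0
    have h3 : (2 : ℤ) ^ k ≤ |2 ^ k * (3 * z + 2)| := by
      rw [abs_mul, abs_of_pos (show (0 : ℤ) < 2 ^ k by positivity)]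
      nlinarith [show (0 : ℤ) < 2 ^ k by positivity]
    have h4 : |2 ^ k * (3 * z + 2)| ≤ 3 * |3 * Tk k z + 2| + 2 := by
      have h5 : 2 ^ k * (3 * z + 2) = 3 * (3 * Tk k z + 2) + (if k % 2 = 1 then 1 else 2) := by
        linarith
      rw [h5]
      refine (abs_add_le _ _).trans ?_
      rw [abs_mul]
      split_ifs
      · norm_num
      · norm_num
    linarith
  have hnp : ∀ u : List ℕ, u ≠ [] → (∀ k ∈ u, 1 ≤ k) → Ala (Tk k z) u → nd (Tk k z) u ≠ Tk k z := by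
    intro u hu h1 ha hnd
    have h2 := T_word h1 ha
    rw [hnd] at h2
    have hs : 1 ≤ u.sum := by
      obtain ⟨a, u', rfl⟩ := List.exists_cons_of_ne_nil hu
      have := h1 a (by simp)
      rw [List.sum_cons]
      omega
    set y := 3 * Tk k z + 2 with hy
    have hper : Function.IsPeriodicPt T u.sum y := h2
    have hmy : T^[i + k] y = T^[j0] m := by
      rw [Function.iterate_add_apply, hup, hz]
    -- `m1` is periodic
    have hmp : T^[u.sum] (T^[j0] m) = T^[j0] m := by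
      rw [← hmy, ← Function.iterate_add_apply, add_comm, Function.iterate_add_apply, h2]
    -- `y` is in the trajectory of `m1`
    have hback : T^[u.sum * (i + k) - (i + k)] (T^[j0] m) = y := by
      rw [← hmy, ← Function.iterate_add_apply]
      have h5 : i + k ≤ u.sum * (i + k) := Nat.le_mul_of_pos_left _ hs
      rw [Nat.sub_add_cancel h5]
      have h6 : Function.IsPeriodicPt T (u.sum * (i + k)) y := hper.mul_const _
      exact h6
    have h7 := hM (u.sum * (i + k) - (i + k)) ⟨u.sum, hs, hmp⟩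
    rw [hback] at h7
    exact absurd h7 (not_le.2 hbig)
  obtain ⟨a, X0, ha, hX⟩ := hroot (Tk k z) hr (four_ndvd hk1 hal) hnp
  refine ⟨a, X0, ha, fun X hX0 => ?_⟩
  obtain ⟨B, hB, hBn⟩ := hX X hX0
  refine ⟨B, hB, fun n hn => ?_⟩
  obtain ⟨h1, l, hl⟩ := hBn n hn
  have hy0 : 3 * Tk k z + 2 ≠ 0 := by omega
  have e1 : 0 < n * (3 * Tk k z + 2) := sign_of_iter hl hy0
  have e2 : 0 < (3 * Tk k z + 2) * (3 * z + 2) := sign_of_iter hup hz0
  have e3 : 0 < (3 * z + 2) * T^[j0] m := sign_of_iter hz hm1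
  have e4 : 0 < m * T^[j0] m := sign_of_iter rfl hm1
  refine ⟨h1, ?_, i + k + l, j0, ?_⟩
  · have e5 : 0 < n * (3 * Tk k z + 2) * ((3 * Tk k z + 2) * (3 * z + 2)) *
        ((3 * z + 2) * T^[j0] m) * (m * T^[j0] m) := by positivity
    have e6 : n * (3 * Tk k z + 2) * ((3 * Tk k z + 2) * (3 * z + 2)) *
        ((3 * z + 2) * T^[j0] m) * (m * T^[j0] m) =
        n * m * ((3 * Tk k z + 2) * (3 * z + 2) * T^[j0] m) ^ 2 := by ring
    rw [e6] at e5
    exact pos_of_mul_pos_left e5 (sq_nonneg _)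
  · rw [Function.iterate_add_apply, hl, Function.iterate_add_apply, hup, hz]

end Pool.Agent.helper18.BAS
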